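import Pool.Agent.Helper26.KD.St

/-! # Project CB, module Boo1: the inequality for the bootstrap -/

set_option autoImplicit false

open scoped BigOperators ENNReal Topology
open Pool.LE Pool.NL Filter

namespace Pool.KD

namespace Boo1M

variable {d : ℕ}

/-- `ww 3 z ≤ 13 (r/m)² ww 5 z` for `|z| ≤ 3 r`, `2 r > m` -/
theorem w35 (hW : StW) {m r : ℝ} (hm : 1 ≤ m) (z : Zd d) (hz : nn z ≤ 3 * r) (hr : m < 2 * r) :
    ww 3 m z ≤ 13 * (r / m) ^ 2 * ww 5 m z := by
  obtain ⟨h1, -, h3, -, h5, -, -, -⟩ := hW d m hm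
  have hm0 : 0 < m := by linarith
  obtain ⟨hq, hn0, hnsq, -, -, -⟩ := h1 z
  have h53 : ww 3 m z = ww 5 m z * qq m z := by
    have h6 := h5 3 2 z
    have h7 : ww 2 m z * qq m z = 1 := by
      unfold ww
      have : (-(2 / 2) : ℝ) = -1 := by norm_num
      rw [this, Real.rpow_neg_one]
      exact inv_mul_cancel₀ (by linarith)
    have h8 : (3 : ℝ) + 2 = 5 := by norm_num
    rw [h8] at h6
    rw [← h6, mul_assoc, h7, mul_one]
  rw [h53, mul_comm]
  refine mul_le_mul_of_nonneg_right ?_ (h3 5 z (by norm_num)).1.le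
  have h9 : LE.sq z ≤ 9 * r ^ 2 := by
    rw [← hnsq]
    nlinarith
  have h10 : 1 ≤ 4 * (r / m) ^ 2 := by
    have : 1 < 2 * (r / m) := by
      rw [mul_div_assoc', lt_div_iff₀ hm0]
      linarith
    nlinarith
  have h11 : LE.sq z / m ^ 2 ≤ 9 * (r / m) ^ 2 := by
    rw [div_pow, ← mul_div_assoc]
    gcongr
  unfold qq
  linarith

end Boo1M

open Boo1M

theorem hBoo1 (hW : StW) (hExp : StExp) (hFs : StFs) (hTl : StTl) (hGrn : StGrn)
    (hDir : StDir) : StBoo1 := by
  classical
  intro d K A hd hK hA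
  have hd1 : 1 ≤ d := by omega
  obtain ⟨CE, hCE, hE⟩ := hExp d 3 hd1 (by norm_num)
  obtain ⟨CD, mD, hCD, hmD, hD⟩ := hDir d 1 K A hd one_pos le_rfl hK hA
  -- constants
  have hdR : (21 : ℝ) ≤ d := by exact_mod_cast hd
  set a : ℝ := A * (3 * (d - 3 - 2)) with ha
  have ha0 : 0 < a := by
    have : (0 : ℝ) < 3 * (d - 3 - 2) := by linarith
    positivity
  have hK0 : 0 < K := by linarith
  have hCE0 : 0 < CE := by linarith
  have hCD0 : 0 < CD := by linarith
  set L : ℝ := 8 * K + (13312 * K + 8 * CD * K) with hL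
  have hL0 : 0 < L := by positivity
  refine ⟨1 + 2 / a * L, max (max 1 mD) (2 * CE * K / a), ?_, ?_, ?_⟩
  · have : 0 ≤ 2 / a * L := by positivity
    linarith
  · exact le_trans (le_max_left _ _) (le_max_left _ _)
  intro F g G hKS m Γ hm hΓ hU x
  have hm1 : 1 ≤ m := le_trans (le_trans (le_max_left _ _) (le_max_left _ _)) hm
  have hmD' : mD ≤ m := le_trans (le_trans (le_max_right _ _) (le_max_left _ _)) hm
  have hma : 2 * CE * K / a ≤ m := le_trans (le_max_right _ _) hm
  have hm0 : 0 < m := by linarith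
  obtain ⟨w1, w2, w3, w4, w5, w6, w7, -⟩ := hW d m hm1
  have wpos : ∀ (s : ℝ) (z : Zd d), 0 ≤ s → 0 < ww s m z := fun s z h => (w3 s z h).1
  have wle : ∀ (s : ℝ) (z : Zd d), 0 ≤ s → ww s m z ≤ 1 := fun s z h => (w3 s z h).2.1
  have nn0 : ∀ z : Zd d, 0 ≤ nn z := fun z => (w1 z).2.1
  have hFs' : Summable (fun y => |F y|) := by
    refine Summable.of_nonneg_of_le (fun y => abs_nonneg _) (fun y => ?_) hKS.F3.summ
    have : 1 ≤ (1 + nn y) ^ 3 := one_le_pow₀ (by linarith [nn0 y])
    exact le_mul_of_one_le_left (abs_nonneg _) this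
  have hFK : ∑' y, |F y| ≤ K := by
    refine le_trans (hFs'.tsum_le_tsum (fun y => ?_) hKS.F3.summ) hKS.F3.le
    have : 1 ≤ (1 + nn y) ^ 3 := one_le_pow₀ (by linarith [nn0 y])
    exact le_mul_of_one_le_left (abs_nonneg _) this
  -- the far part
  set E : Zd d → ℝ := fun y => ∑' y', if m + nn y < 2 * nn y' then |F y'| * ww 3 m (y - y') else 0
    with hEdef
  have hEs : ∀ y : Zd d,
      Summable (fun y' => if m + nn y < 2 * nn y' then |F y'| * ww 3 m (y - y') else 0) :=
    fun y => (hE F K m hKS.Fsym hKS.F3 hm1 y).2.1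
  have hEt : ∀ y y' : Zd d,
      0 ≤ (if m + nn y < 2 * nn y' then |F y'| * ww 3 m (y - y') else 0) ∧
      (if m + nn y < 2 * nn y' then |F y'| * ww 3 m (y - y') else 0) ≤ |F y'| := by
    intro y y'
    have h1 := wpos 3 (y - y') (by norm_num)
    have h2 := wle 3 (y - y') (by norm_num)
    split_ifs
    · exact ⟨by positivity, mul_le_of_le_one_right (abs_nonneg _) h2⟩
    · exact ⟨le_rfl, abs_nonneg _⟩
  have hE0 : ∀ y, 0 ≤ E y := fun y => tsum_nonneg fun y' => (hEt y y').1
  have hEK : ∀ y, |E y| ≤ K := by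
    intro y
    rw [abs_of_nonneg (hE0 y)]
    exact le_trans ((hEs y).tsum_le_tsum (fun y' => (hEt y y').2) hFs') hFK
  -- step 1
  have step1 : ∀ y, a / (2 * m ^ 2) * ww 5 m y ≤
      (ww 3 m y - ∑' z, F z * ww 3 m (y - z)) + E y := by
    intro y
    obtain ⟨-, -, h1⟩ := hE F K m hKS.Fsym hKS.F3 hm1 y
    have h2 := (abs_le.1 h1).1
    obtain ⟨h3, -⟩ := hFs d 3 m y hm1 (by norm_num) (by linarith)
    have e5 : (3 : ℝ) + 2 = 5 := by norm_num
    have e6 : (3 : ℝ) + 3 = 6 := by norm_num
    rw [e5] at h3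
    rw [e6] at h2
    have h65 : ww 6 m y ≤ ww 5 m y := w4 5 6 y (by norm_num)
    have hw5 := wpos 5 y (by norm_num)
    have hw3 := wpos 3 y (by norm_num)
    have h4 : 0 ≤ (1 - ∑' z, F z) * ww 3 m y := mul_nonneg (by linarith [hKS.F1]) hw3.le
    have hfs0 : 0 ≤ fs 3 m y := le_trans (by
      have : (0 : ℝ) < 3 * (d - 3 - 2) := by linarith
      positivity) h3
    have h5 : A / m ^ 2 * (3 * (d - 3 - 2) * ww 5 m y) ≤
        (∑' z, LE.sq z * F z) / (2 * d) / m ^ 2 * fs 3 m y := by
      have h6 := hKS.F2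
      have h7 : A / m ^ 2 ≤ (∑' z, LE.sq z * F z) / (2 * d) / m ^ 2 := by gcongr
      exact mul_le_mul h7 h3 (by
        have : (0 : ℝ) < 3 * (d - 3 - 2) := by linarith
        positivity) (le_trans (by positivity) h7)
    have h8 : CE * K / m ^ 3 * ww 6 m y ≤ a / (2 * m ^ 2) * ww 5 m y := by
      have h9 : CE * K / m ^ 3 ≤ a / (2 * m ^ 2) := by
        rw [div_le_iff₀ ha0] at hma
        rw [div_le_div_iff₀ (by positivity) (by positivity)]
        have h10 : 2 * CE * K * m ^ 2 ≤ (m * a) * m ^ 2 := by gcongr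
        linarith [h10, show (m * a) * m ^ 2 = a * m ^ 3 by ring,
          show 2 * CE * K * m ^ 2 = CE * K * (2 * m ^ 2) by ring]
      exact mul_le_mul h9 h65 (wpos 6 y (by norm_num)).le (by positivity)
    have h11 : A / m ^ 2 * (3 * (d - 3 - 2) * ww 5 m y) = 2 * (a / (2 * m ^ 2) * ww 5 m y) := by
      rw [ha]
      field_simp
    have h12 : E y = ∑' y', if m + nn y < 2 * nn y' then |F y'| * ww 3 m (y - y') else 0 := rfl
    rw [← h12] at h2
    linarith
  -- step 2
  obtain ⟨hs5, -, -, -⟩ := hGrn d F g G K A hKS (ww 5 m) ⟨1, fun z => by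
    rw [abs_of_pos (wpos 5 z (by norm_num))]
    exact wle 5 z (by norm_num)⟩ x
  obtain ⟨hs3, hsg, hsF, hid⟩ := hGrn d F g G K A hKS (ww 3 m) ⟨1, fun z => by
    rw [abs_of_pos (wpos 3 z (by norm_num))]
    exact wle 3 z (by norm_num)⟩ x
  obtain ⟨hsE, -, -, -⟩ := hGrn d F g G K A hKS E ⟨K, hEK⟩ x
  have step2 : a / (2 * m ^ 2) * ∑' y, G (x - y) * ww 5 m y ≤
      ∑' y, g y * ww 3 m (x - y) + ∑' y, G (x - y) * E y := by
    rw [← hid, ← tsum_mul_left]
    have hs4 : Summable (fun y => G (x - y) * (ww 3 m y - ∑' z, F z * ww 3 m (y - z))) := by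
      have := hs3.sub hsF
      refine this.congr fun y => ?_
      ring
    rw [← hs4.tsum_add hsE]
    refine (hs5.mul_left _).tsum_le_tsum (fun y => ?_) (hs4.add hsE)
    have h1 := mul_le_mul_of_nonneg_left (step1 y) (hKS.G0 (x - y))
    linarith
  -- the source
  have step3 : ∑' y, g y * ww 3 m (x - y) ≤ 8 * K * ww 3 m x := by
    have h1 : ∀ y, g y * ww 3 m (x - y) ≤ 8 * ww 3 m x * ((1 + nn y) ^ 3 * |g y|) := by
      intro y
      have h2 := w6 3 x y (by norm_num)
      have e8 : (2 : ℝ) ^ (3 : ℝ) = 8 := by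
        rw [show (3 : ℝ) = ((3 : ℕ) : ℝ) by norm_num, Real.rpow_natCast]
        norm_num
      have e3 : (1 + nn y / m) ^ (3 : ℝ) = (1 + nn y / m) ^ 3 := by
        rw [show (3 : ℝ) = ((3 : ℕ) : ℝ) by norm_num, Real.rpow_natCast]
      rw [e8, e3] at h2
      have h3 : (1 + nn y / m) ^ 3 ≤ (1 + nn y) ^ 3 := by
        have := nn0 y
        have h4 : nn y / m ≤ nn y := div_le_self this hm1
        gcongr
      calc g y * ww 3 m (x - y) ≤ |g y| * ww 3 m (x - y) :=
            mul_le_mul_of_nonneg_right (le_abs_self _) (wpos 3 _ (by norm_num)).le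
        _ ≤ |g y| * (8 * (1 + nn y / m) ^ 3 * ww 3 m x) :=
            mul_le_mul_of_nonneg_left h2 (abs_nonneg _)
        _ ≤ |g y| * (8 * (1 + nn y) ^ 3 * ww 3 m x) := by
            have := wpos 3 x (by norm_num)
            gcongr
        _ = _ := by ring
    refine le_trans (hsg.tsum_le_tsum h1 (hKS.g3.summ.mul_left _)) ?_
    rw [tsum_mul_left]
    have h2 := mul_le_mul_of_nonneg_left hKS.g3.le
      (by have := wpos 3 x (by norm_num); positivity : 0 ≤ 8 * ww 3 m x)
    linarith
  -- the far part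
  have step4 : ∑' y, G (x - y) * E y ≤ (13312 * K * Γ + 8 * CD * K) / m * ww 3 m x := by
    have hGs : Summable (fun y => G (x - y)) := by
      obtain ⟨h1, -, -, -⟩ := hGrn d F g G K A hKS (fun _ => 1) ⟨1, fun z => by simp⟩ x
      simpa using h1
    -- the double sum
    set f : Zd d → Zd d → ℝ := fun y y' =>
      G (x - y) * (if m + nn y < 2 * nn y' then |F y'| * ww 3 m (y - y') else 0) with hf
    have hfs : Summable (Function.uncurry f) := by
      refine Summable.of_nonneg_of_le (fun q => mul_nonneg (hKS.G0 _) (hEt q.1 q.2).1) (fun q => ?_)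
        (hGs.mul_of_nonneg hFs' (fun y => hKS.G0 _) (fun y => abs_nonneg _))
      exact mul_le_mul_of_nonneg_left (hEt q.1 q.2).2 (hKS.G0 _)
    have h1 : ∑' y, G (x - y) * E y = ∑' y', ∑' y, f y y' := by
      rw [hfs.tsum_comm]
      refine tsum_congr fun y => ?_
      rw [hEdef, ← tsum_mul_left]
    have hin : ∀ y', Summable (fun y => f y y') := fun y' => by
      have := hfs.prod_symm.prod_factor y'
      exact this
    have hout : Summable (fun y' => ∑' y, f y y') := by
      have := hfs.prod_symm.prod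
      exact this
    -- the inner sum
    have h2 : ∀ y', ∑' y, f y y' ≤ 13312 * Γ / m * ww 3 m x * ((1 + nn y') ^ 3 * |F y'|) +
        CD * m ^ 2 * (if m + nn x < 2 * nn y' then |F y'| else 0) := by
      intro y'
      have hw3x := wpos 3 x (by norm_num)
      have hn' := nn0 y'
      have p1 : 0 ≤ 13312 * Γ / m * ww 3 m x * ((1 + nn y') ^ 3 * |F y'|) := by positivity
      have p2 : 0 ≤ CD * m ^ 2 * (if m + nn x < 2 * nn y' then |F y'| else 0) := by
        split_ifs
        · positivity
        · simp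
      by_cases hc : m < 2 * nn y'
      swap
      · -- the inner sum vanishes
        have h3 : ∀ y, f y y' = 0 := by
          intro y
          have : ¬ (m + nn y < 2 * nn y') := by
            have := nn0 y
            linarith
          show G (x - y) * _ = 0
          rw [if_neg this, mul_zero]
        rw [tsum_congr h3, tsum_zero]
        linarith
      by_cases hx : m + nn x < 2 * nn y'
      · -- case B
        have h3 : ∀ y, f y y' ≤ |F y'| * (G (x - y) * ww 3 m (y - y')) := by
          intro y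
          have h4 := wpos 3 (y - y') (by norm_num)
          have h5 : (if m + nn y < 2 * nn y' then |F y'| * ww 3 m (y - y') else 0) ≤
              |F y'| * ww 3 m (y - y') := by
            split_ifs
            · exact le_rfl
            · positivity
          have := mul_le_mul_of_nonneg_left h5 (hKS.G0 (x - y))
          show G (x - y) * _ ≤ _
          linarith
        have h4 : Summable (fun y => G (x - y) * ww 3 m (y - y')) := by
          refine Summable.of_nonneg_of_le (fun y => mul_nonneg (hKS.G0 _)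
            (wpos 3 _ (by norm_num)).le) (fun y => ?_) hGs
          exact mul_le_of_le_one_right (hKS.G0 _) (wle 3 _ (by norm_num))
        have h5 : ∑' y, G (x - y) * ww 3 m (y - y') ≤ CD * m ^ 2 := by
          have h6 := hD F g G hKS m (x - y') hmD'
          have e3 : (1 : ℝ) + 2 = 3 := by norm_num
          rw [e3] at h6
          have h7 : ∑' y, G (x - y) * ww 3 m (y - y') = ∑' y, G (x - y' - y) * ww 3 m y := by
            rw [← (Equiv.addRight y').tsum_eq (fun y => G (x - y) * ww 3 m (y - y'))]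
            refine tsum_congr fun y => ?_
            simp only [Equiv.coe_addRight]
            congr 2 <;> abel
          rw [h7]
          refine h6.trans ?_
          have := wle 1 (x - y') (by norm_num)
          have h8 : 0 ≤ CD * m ^ 2 := by positivity
          nlinarith
        rw [if_pos hx]
        have h6 : ∑' y, f y y' ≤ |F y'| * (CD * m ^ 2) := by
          refine le_trans ((hin y').tsum_le_tsum h3 (h4.mul_left _)) ?_
          rw [tsum_mul_left]
          exact mul_le_mul_of_nonneg_left h5 (abs_nonneg _)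
        linarith
      · -- case A
        rw [if_neg hx, mul_zero, add_zero]
        have h3 : ∀ y, f y y' ≤ |F y'| * (13 * (nn y' / m) ^ 2) * (G (x - y) * ww 5 m (y - y')) := by
          intro y
          have h4 := wpos 3 (y - y') (by norm_num)
          have h5 : (if m + nn y < 2 * nn y' then |F y'| * ww 3 m (y - y') else 0) ≤
              |F y'| * (13 * (nn y' / m) ^ 2 * ww 5 m (y - y')) := by
            have hw5 := wpos 5 (y - y') (by norm_num)
            split_ifs with hc2
            · refine mul_le_mul_of_nonneg_left ?_ (abs_nonneg _)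
              refine w35 hW hm1 (y - y') ?_ hc
              have h6 := (w2 y (-y')).1
              have h7 : nn (-y') = nn y' := (w1 y').2.2.2.1
              rw [← sub_eq_add_neg, h7] at h6
              linarith
            · positivity
          have := mul_le_mul_of_nonneg_left h5 (hKS.G0 (x - y))
          show G (x - y) * _ ≤ _
          linarith
        have h4 : Summable (fun y => G (x - y) * ww 5 m (y - y')) := by
          refine Summable.of_nonneg_of_le (fun y => mul_nonneg (hKS.G0 _)
            (wpos 5 _ (by norm_num)).le) (fun y => ?_) hGs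
          exact mul_le_of_le_one_right (hKS.G0 _) (wle 5 _ (by norm_num))
        have h5 : ∑' y, G (x - y) * ww 5 m (y - y') ≤ Γ * m ^ 2 * (512 * ww 3 m x) := by
          have h7 : ∑' y, G (x - y) * ww 5 m (y - y') = ∑' y, G (x - y' - y) * ww 5 m y := by
            rw [← (Equiv.addRight y').tsum_eq (fun y => G (x - y) * ww 5 m (y - y'))]
            refine tsum_congr fun y => ?_
            simp only [Equiv.coe_addRight]
            congr 2 <;> abel
          rw [h7]
          refine (hU (x - y')).trans ?_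
          have h8 := w7 3 x y' (by norm_num) (not_lt.1 hx)
          have e8 : (8 : ℝ) ^ (3 : ℝ) = 512 := by
            rw [show (3 : ℝ) = ((3 : ℕ) : ℝ) by norm_num, Real.rpow_natCast]
            norm_num
          rw [e8] at h8
          gcongr
        have h6 : ∑' y, f y y' ≤ |F y'| * (13 * (nn y' / m) ^ 2) * (Γ * m ^ 2 * (512 * ww 3 m x)) := by
          refine le_trans ((hin y').tsum_le_tsum h3 (h4.mul_left _)) ?_
          rw [tsum_mul_left]
          exact mul_le_mul_of_nonneg_left h5 (by positivity)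
        refine h6.trans ?_
        have h7 : |F y'| * (13 * (nn y' / m) ^ 2) * (Γ * m ^ 2 * (512 * ww 3 m x)) =
            6656 * Γ * ww 3 m x * |F y'| * (nn y') ^ 2 := by
          field_simp
          ring
        rw [h7]
        have h8 : (nn y') ^ 2 ≤ 2 / m * (1 + nn y') ^ 3 := by
          rw [div_mul_eq_mul_div, le_div_iff₀ hm0]
          have h9 : nn y' ^ 2 * m ≤ nn y' ^ 2 * (2 * nn y') := by
            have := hc.le
            gcongr
          have h10 : nn y' ^ 3 ≤ (1 + nn y') ^ 3 := by
            gcongr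
            linarith
          nlinarith
        calc 6656 * Γ * ww 3 m x * |F y'| * (nn y') ^ 2
            ≤ 6656 * Γ * ww 3 m x * |F y'| * (2 / m * (1 + nn y') ^ 3) := by
              have : 0 ≤ 6656 * Γ * ww 3 m x * |F y'| := by positivity
              exact mul_le_mul_of_nonneg_left h8 this
          _ = _ := by
              field_simp
              ring
    obtain ⟨hts, htl⟩ := hTl d F K m hKS.F3 hm1 x
    rw [h1]
    refine le_trans (hout.tsum_le_tsum h2 ((hKS.F3.summ.mul_left _).add (hts.mul_left _))) ?_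
    rw [(hKS.F3.summ.mul_left _).tsum_add (hts.mul_left _), tsum_mul_left, tsum_mul_left]
    have hw3x := wpos 3 x (by norm_num)
    have h3 : 13312 * Γ / m * ww 3 m x * ∑' y, (1 + nn y) ^ 3 * |F y| ≤
        13312 * Γ / m * ww 3 m x * K :=
      mul_le_mul_of_nonneg_left hKS.F3.le (by positivity)
    have h4 : CD * m ^ 2 * (∑' y', if m + nn x < 2 * nn y' then |F y'| else 0) ≤
        CD * m ^ 2 * (8 * K / m ^ 3 * ww 3 m x) :=
      mul_le_mul_of_nonneg_left htl (by positivity)
    have h5 : CD * m ^ 2 * (8 * K / m ^ 3 * ww 3 m x) = 8 * CD * K / m * ww 3 m x := by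
      field_simp
    have h6 : (13312 * K * Γ + 8 * CD * K) / m * ww 3 m x =
        13312 * Γ / m * ww 3 m x * K + 8 * CD * K / m * ww 3 m x := by
      field_simp
    linarith
  -- conclusion
  have hw3x := wpos 3 x (by norm_num)
  have h1 : a / (2 * m ^ 2) * ∑' y, G (x - y) * ww 5 m y ≤ (L + L / m * (1 + Γ)) * ww 3 m x := by
    have h2 : 8 * K * ww 3 m x + (13312 * K * Γ + 8 * CD * K) / m * ww 3 m x ≤
        (L + L / m * (1 + Γ)) * ww 3 m x := by
      rw [← add_mul]
      refine mul_le_mul_of_nonneg_right ?_ hw3x.le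
      have h3 : 13312 * K * Γ + 8 * CD * K ≤ L * (1 + Γ) := by
        rw [hL]
        have : 0 ≤ 8 * K + 8 * CD * K := by positivity
        nlinarith [mul_nonneg this hΓ, mul_nonneg hK0.le hΓ, mul_pos hCD0 hK0]
      have h4 : (13312 * K * Γ + 8 * CD * K) / m ≤ L / m * (1 + Γ) := by
        rw [div_mul_eq_mul_div]
        gcongr
      have h5 : 8 * K ≤ L := by
        rw [hL]
        have : 0 ≤ 13312 * K + 8 * CD * K := by positivity
        linarith
      linarith
    linarith
  have h2 : ∑' y, G (x - y) * ww 5 m y ≤ 2 / a * (L + L / m * (1 + Γ)) * m ^ 2 * ww 3 m x := by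
    have h3 := mul_le_mul_of_nonneg_left h1 (by positivity : 0 ≤ 2 * m ^ 2 / a)
    have h4 : 2 * m ^ 2 / a * (a / (2 * m ^ 2) * ∑' y, G (x - y) * ww 5 m y) =
        ∑' y, G (x - y) * ww 5 m y := by
      field_simp
    rw [h4] at h3
    refine h3.trans (le_of_eq ?_)
    ring
  refine h2.trans ?_
  have h3 : 2 / a * (L + L / m * (1 + Γ)) ≤
      (1 + 2 / a * L) + (1 + 2 / a * L) / m * (1 + Γ) := by
    have h4 : 0 ≤ 1 / m * (1 + Γ) := by positivity
    have h5 : 2 / a * (L + L / m * (1 + Γ)) = 2 / a * L + 2 / a * L * (1 / m * (1 + Γ)) := by ring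
    have h6 : (1 + 2 / a * L) / m * (1 + Γ) = (1 + 2 / a * L) * (1 / m * (1 + Γ)) := by ring
    rw [h5, h6]
    linarith
  gcongr

end Pool.KD
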