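import Pool.Agent.Helper26.KD.StT

/-! # Project CB, module T0c: the comparison -/

set_option autoImplicit false

open scoped BigOperators ENNReal Topology
open Pool.LE Pool.NL Filter

namespace Pool.KD

namespace T0cM

/-- the sum over the big box as a sum over a box with corner `0` -/
theorem sum_tr (hTrL : StTrL) (d n M : ℕ) (p : ℝ) (h0 : 0 ≤ p) (h1 : p ≤ 1) (x c₀ : Zd d)
    (h : Zd d → ℝ) :
    ∑ y ∈ CB.Lam d n M, cp (ES (CB.Lam d n M)) p x y * h (y - c₀) =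
      ∑ b ∈ Bn d ((2 * M + 1) * n), cp (ES (Bn d ((2 * M + 1) * n))) p
        (x + fun _ => ((M * n : ℕ) : ℤ)) b * h (b - (c₀ + fun _ => ((M * n : ℕ) : ℤ))) := by
  obtain ⟨hm, hc, -, -, -⟩ := hTrL d n M p h0 h1
  refine Finset.sum_bij' (fun y _ => y + fun _ => ((M * n : ℕ) : ℤ))
    (fun b _ => b - fun _ => ((M * n : ℕ) : ℤ)) ?_ ?_ ?_ ?_ ?_
  · intro y hy
    exact (hm y).1 hy
  · intro b hb
    rw [hm, sub_add_cancel]
    exact hb
  · intro y _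
    exact add_sub_cancel_right _ _
  · intro b _
    exact sub_add_cancel _ _
  · intro y _
    rw [hc x y]
    congr 2
    abel

/-- coordinates of points near the box -/
theorem near {d n M : ℕ} (hn : 1 ≤ n) (x : Zd d) (h : 2 * CB.rr n x ≤ M) (i : Fin d) :
    2 * |x i - ((n / 2 : ℕ) : ℤ)| ≤ ((M * n : ℕ) : ℤ) := by
  have hn0 : (0 : ℝ) < n := by exact_mod_cast hn
  have h1 : (max (-x i) (x i - ((n : ℤ) - 1))).toNat ≤ CB.dq n x :=
    Finset.le_sup (f := fun i => (max (-x i) (x i - ((n : ℤ) - 1))).toNat) (Finset.mem_univ i)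
  have h2 : max (-x i) (x i - ((n : ℤ) - 1)) ≤ (CB.dq n x : ℤ) :=
    (Int.self_le_toNat _).trans (by exact_mod_cast h1)
  have h3 : -x i ≤ (CB.dq n x : ℤ) := (le_max_left _ _).trans h2
  have h4 : x i - ((n : ℤ) - 1) ≤ (CB.dq n x : ℤ) := (le_max_right _ _).trans h2
  have h5 : 2 * (n + CB.dq n x) ≤ M * n := by
    unfold CB.rr at h
    have h6 : 2 * ((n : ℝ) + CB.dq n x) ≤ M * n := by
      have h7 := mul_le_mul_of_nonneg_right h hn0.le
      have h8 : 2 * (1 + (CB.dq n x : ℝ) / n) * n = 2 * ((n : ℝ) + CB.dq n x) := by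
        field_simp
      linarith
    exact_mod_cast h6
  have h6 : |x i - ((n / 2 : ℕ) : ℤ)| ≤ (n : ℤ) + CB.dq n x := by
    rw [abs_le]
    constructor
    · omega
    · omega
  have h7 : 2 * ((n : ℤ) + CB.dq n x) ≤ ((M * n : ℕ) : ℤ) := by exact_mod_cast h5
  linarith

end T0cM

open T0cM

theorem hT0c (hT0p : StT0p) (hT0m : StT0m) (hWc : StWc) (hFs : StFs) (hRr : StRr)
    (hTrL : StTrL) (hW : StW) (hBn : StBn) (hBox : StBox) : StT0c := by
  classical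
  intro d K A hEK
  have hK := hEK.hK
  have hA := hEK.hA
  have hd := hEK.hd
  have hd1 : 1 ≤ d := by omega
  have hdR : (21 : ℝ) ≤ d := by exact_mod_cast hd
  have hp0 : 0 ≤ pH d := hEK.p0.le
  have hp1 : pH d ≤ 1 := le_trans hEK.p1 (by norm_num)
  obtain ⟨CP, hCP, hP⟩ := hT0p d K A hEK
  obtain ⟨Rc, hRc, hrr⟩ := hRr d hd1
  have hbx : ∀ (R : ℕ) (y : Zd d), y ∈ bx d R ↔ ∀ i, |y i| ≤ R := (hBox d).2.1
  set κ : ℝ := 11 / 4 * (d - 11 / 4 - 2) with hκ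
  have hκ0 : 0 < κ := by
    have : (0 : ℝ) < d - 11 / 4 - 2 := by linarith
    positivity
  have hRc0 : 0 < Rc := by linarith
  set κ' : ℝ := Rc ^ (19 / 8 : ℝ) / κ with hκ'
  have hκ'0 : 0 < κ' := by positivity
  refine ⟨1 + κ' / A * (4 * K + 8 * d * A * K), ?_, ?_⟩
  · have : 0 ≤ κ' / A * (4 * K + 8 * d * A * K) := by positivity
    linarith
  intro M hM
  have hMR : (1 : ℝ) ≤ M := by exact_mod_cast hM
  obtain ⟨CM, hCM, hm⟩ := hT0m d K A hEK M hM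
  obtain ⟨CW, -, hw⟩ := hWc (11 / 4) M (by norm_num) hMR
  refine ⟨1 + κ' / A * (CP + CM), ?_, ?_⟩
  · have : 0 ≤ κ' / A * (CP + CM) := by positivity
    linarith
  intro n M' x hn hMM' hx
  have hnR : (16 : ℝ) ≤ n := by exact_mod_cast hn
  have hn0 : (0 : ℝ) < n := by linarith
  have hn1 : (1 : ℝ) ≤ n := by linarith
  have hn1' : 1 ≤ n := by omega
  have hM'1 : 1 ≤ M' := hM.trans hMM'
  have hM'R : (1 : ℝ) ≤ M' := by exact_mod_cast hM'1
  obtain ⟨-, -, -, -, w5⟩ := hw d n hn1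
  obtain ⟨-, -, wp, -, -, -, -, -⟩ := hW d n hn1
  obtain ⟨hm1, -, -, hm4, hm5⟩ := hTrL d n M (pH d) hp0 hp1
  obtain ⟨hm1', -, hmono, -, -⟩ := hTrL d n M' (pH d) hp0 hp1
  set c₀ : Zd d := fun _ => ((n / 2 : ℕ) : ℤ) with hc₀
  have hnear : ∀ i, 2 * |x i - ((n / 2 : ℕ) : ℤ)| ≤ ((M * n : ℕ) : ℤ) := fun i => near hn1' x hx i
  have hBmem : ∀ (N : ℕ) (z : Zd d), z ∈ Bn d N ↔ ∀ i, 0 ≤ z i ∧ z i < N := fun N =>
    (hBn d N).2.2.2.1
  have hMn : n ≤ M * n := Nat.le_mul_of_pos_left n hM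
  have hMn' : M * n ≤ M' * n := Nat.mul_le_mul_right n hMM'
  have hN : (2 * M + 1) * n = 2 * (M * n) + n := by ring
  have hN' : (2 * M' + 1) * n = 2 * (M' * n) + n := by ring
  -- the point `x` is in the box
  have hxL : x ∈ CB.Lam d n M := by
    rw [hm1, hBmem]
    intro i
    have h1 := hnear i
    rw [hN]
    rw [Pi.add_apply]
    generalize hQ : M * n = Q at *
    rcases abs_cases (x i - ((n / 2 : ℕ) : ℤ)) with ⟨h2, h3⟩ | ⟨h2, h3⟩ <;> rw [h2] at h1 <;>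
      constructor <;> omega
  have hLL : CB.Lam d n M ⊆ CB.Lam d n M' := by
    intro y hy
    rw [hm1, hBmem] at hy
    rw [hm1', hBmem]
    intro i
    have h1 := hy i
    rw [hN] at h1
    rw [hN']
    rw [Pi.add_apply] at h1 ⊢
    generalize hQ : M * n = Q at *
    generalize hQ' : M' * n = Q' at *
    constructor <;> omega
  -- upper bound in the large box
  have hPx := hP n ((2 * M' + 1) * n) (M' * n) (c₀ + fun _ => ((M' * n : ℕ) : ℤ))
    (x + fun _ => ((M' * n : ℕ) : ℤ)) hn1' (hMn.trans hMn') (by omega) (by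
      rw [hN']
      omega) (by
      intro y hy
      rw [hBmem]
      intro i
      have h1 := (hbx _ _).1 hy i
      rw [hN']
      simp only [Pi.add_apply, hc₀]
      generalize hQ' : M' * n = Q' at *
      rcases abs_cases (y i) with ⟨h2, h3⟩ | ⟨h2, h3⟩ <;> rw [h2] at h1 <;>
        constructor <;> omega) (by
      rw [hbx]
      intro i
      have h1 := hnear i
      simp only [Pi.add_apply, Pi.sub_apply, hc₀]
      have h2 : x i + ((M' * n : ℕ) : ℤ) - (((n / 2 : ℕ) : ℤ) + ((M' * n : ℕ) : ℤ)) =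
        x i - ((n / 2 : ℕ) : ℤ) := by ring
      rw [h2]
      generalize hQ : M * n = Q at *
      generalize hQ' : M' * n = Q' at *
      generalize |x i - ((n / 2 : ℕ) : ℤ)| = z at *
      omega)
  rw [← sum_tr hTrL d n M' (pH d) hp0 hp1 x c₀ (fs (11 / 4) n)] at hPx
  have e1 : x + (fun _ => ((M' * n : ℕ) : ℤ)) - (c₀ + fun _ => ((M' * n : ℕ) : ℤ)) = x - c₀ := by
    abel
  rw [e1] at hPx
  -- lower bound in the small box
  have hMx := hm n ((2 * M + 1) * n) (c₀ + fun _ => ((M * n : ℕ) : ℤ))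
    (x + fun _ => ((M * n : ℕ) : ℤ)) hn (by
      rw [hN]
      have : 4 * M * n = 4 * (M * n) := by ring
      omega) (by
      intro y hy
      rw [hBmem]
      intro i
      have h1 := (hbx _ _).1 hy i
      rw [hN]
      simp only [Pi.add_apply, hc₀]
      generalize hQ : M * n = Q at *
      rcases abs_cases (y i) with ⟨h2, h3⟩ | ⟨h2, h3⟩ <;> rw [h2] at h1 <;>
        constructor <;> omega) (by
      intro y hy
      rw [hBmem]
      intro i
      have h1 := (hbx _ _).1 hy i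
      have h1' := hnear i
      rw [hN]
      simp only [Pi.add_apply]
      generalize hQ : M * n = Q at *
      rcases abs_cases (y i) with ⟨h2, h3⟩ | ⟨h2, h3⟩ <;> rw [h2] at h1 <;>
        rcases abs_cases (x i - ((n / 2 : ℕ) : ℤ)) with ⟨h4, h5⟩ | ⟨h4, h5⟩ <;> rw [h4] at h1' <;>
        constructor <;> omega)
  rw [← sum_tr hTrL d n M (pH d) hp0 hp1 x c₀ (fun z => fs (11 / 4) n z +
    8 * d / (M : ℝ) ^ 2 * ww (11 / 4) n z)] at hMx
  have e2 : x + (fun _ => ((M * n : ℕ) : ℤ)) - (c₀ + fun _ => ((M * n : ℕ) : ℤ)) = x - c₀ := by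
    abel
  rw [e2] at hMx
  -- names
  set S' : ℝ := ∑ y ∈ CB.Lam d n M', cp (ES (CB.Lam d n M')) (pH d) x y * fs (11 / 4) n (y - c₀)
    with hS'
  set S : ℝ := ∑ y ∈ CB.Lam d n M, cp (ES (CB.Lam d n M)) (pH d) x y * fs (11 / 4) n (y - c₀)
    with hS
  set T : ℝ := ∑ y ∈ CB.Lam d n M, cp (ES (CB.Lam d n M)) (pH d) x y * ww (11 / 4) n (y - c₀)
    with hT
  have e3 : ∑ y ∈ CB.Lam d n M, cp (ES (CB.Lam d n M)) (pH d) x y *
      (fs (11 / 4) n (y - c₀) + 8 * d / (M : ℝ) ^ 2 * ww (11 / 4) n (y - c₀)) =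
      S + 8 * d / (M : ℝ) ^ 2 * T := by
    rw [hS, hT, Finset.mul_sum, ← Finset.sum_add_distrib]
    refine Finset.sum_congr rfl fun y _ => ?_
    ring
  rw [e3] at hMx
  -- `T ≤ K n²`
  have hTle : T ≤ K * (n : ℝ) ^ 2 := by
    have h1 := hEK.tw n ((CB.Lam d n M).image (fun y => y - c₀)) (x - c₀) hn1
    rw [Finset.sum_image (fun a _ b _ hab => sub_left_injective hab)] at h1
    refine le_trans ?_ h1
    refine Finset.sum_le_sum fun y _ => ?_
    have h2 := hm4 (CB.Lam d n M) x y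
    have h3 : y - c₀ - (x - c₀) = y - x := by abel
    rw [h3]
    exact mul_le_mul_of_nonneg_right h2 (wp (11 / 4) _ (by norm_num)).1.le
  -- the mass of `g`
  set W : ℝ := ∑' y, gS d (pH d) y with hWdef
  have hWK : W ≤ K := by
    have hgs : Summable (fun y => |gS d (pH d) y|) := by
      refine Summable.of_nonneg_of_le (fun y => abs_nonneg _) (fun y => ?_) hEK.gM.summ
      have : 1 ≤ (1 + nn y) ^ 3 := one_le_pow₀ (by
        have : 0 ≤ nn y := Real.sqrt_nonneg _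
        linarith)
      exact le_mul_of_one_le_left (abs_nonneg _) this
    refine le_trans (hgs.of_abs.tsum_le_tsum (fun y => ?_) hEK.gM.summ) hEK.gM.le
    have : 1 ≤ (1 + nn y) ^ 3 := one_le_pow₀ (by
      have : 0 ≤ nn y := Real.sqrt_nonneg _
      linarith)
    exact (le_abs_self _).trans (le_mul_of_one_le_left (abs_nonneg _) this)
  have hW0 : 0 ≤ W := hEK.gp
  -- the error of the large box
  have hpow : ((M' * n : ℕ) : ℝ) ^ 2 * ((n : ℝ) / ((M' * n : ℕ) : ℝ)) ^ (11 / 4 : ℝ) =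
      (n : ℝ) ^ 2 * (1 / (M' : ℝ)) ^ (3 / 4 : ℝ) := by
    have hM'0 : (0 : ℝ) < M' := by linarith
    have h1 : (n : ℝ) / ((M' * n : ℕ) : ℝ) = 1 / (M' : ℝ) := by
      push_cast
      field_simp
    rw [h1]
    have h2 : (11 / 4 : ℝ) = 2 + 3 / 4 := by norm_num
    rw [h2, Real.rpow_add (by positivity), Real.rpow_two]
    push_cast
    field_simp
  -- comparison of the two
  have hdiff : A / (n : ℝ) ^ 2 * (S' - S) ≤ (4 * K + 8 * d * A * K) / (M : ℝ) ^ 2 +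
      (CP + CM) / n + CP * ((n : ℝ) ^ 2 * (1 / (M' : ℝ)) ^ (3 / 4 : ℝ)) := by
    have h1 : W * (ww (11 / 4) n (x - c₀) - wc (11 / 4) n (M * n) (x - c₀)) ≤
        4 * K / (M : ℝ) ^ 2 := by
      have h2 := w5 (x - c₀) (by norm_num)
      calc W * (ww (11 / 4) n (x - c₀) - wc (11 / 4) n (M * n) (x - c₀)) ≤
            W * (4 / (M : ℝ) ^ 2) := mul_le_mul_of_nonneg_left h2 hW0
        _ ≤ K * (4 / (M : ℝ) ^ 2) := mul_le_mul_of_nonneg_right hWK (by positivity)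
        _ = _ := by ring
    have h2 : A / (n : ℝ) ^ 2 * (8 * d / (M : ℝ) ^ 2 * T) ≤ 8 * d * A * K / (M : ℝ) ^ 2 := by
      calc A / (n : ℝ) ^ 2 * (8 * d / (M : ℝ) ^ 2 * T)
          ≤ A / (n : ℝ) ^ 2 * (8 * d / (M : ℝ) ^ 2 * (K * (n : ℝ) ^ 2)) := by gcongr
        _ = 8 * d * A * K / (M : ℝ) ^ 2 := by
            field_simp
    have h3 : A / (n : ℝ) ^ 2 * (S' - S) = A / (n : ℝ) ^ 2 * S' -
        A / (n : ℝ) ^ 2 * (S + 8 * d / (M : ℝ) ^ 2 * T) +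
        A / (n : ℝ) ^ 2 * (8 * d / (M : ℝ) ^ 2 * T) := by ring
    have h4 : CP * ((M' * n : ℕ) : ℝ) ^ 2 * ((n : ℝ) / ((M' * n : ℕ) : ℝ)) ^ (11 / 4 : ℝ) =
        CP * ((n : ℝ) ^ 2 * (1 / (M' : ℝ)) ^ (3 / 4 : ℝ)) := by
      rw [← hpow]
      ring
    rw [h4] at hPx
    have h5 : (4 * K + 8 * d * A * K) / (M : ℝ) ^ 2 =
      4 * K / (M : ℝ) ^ 2 + 8 * d * A * K / (M : ℝ) ^ 2 := by ring
    have h6 : (CP + CM) / (n : ℝ) = CP / n + CM / n := by ring
    rw [h3, h5, h6]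
    have h7 : W * (ww (11 / 4) n (x - c₀) - wc (11 / 4) n (M * n) (x - c₀)) =
      W * ww (11 / 4) n (x - c₀) - W * wc (11 / 4) n (M * n) (x - c₀) := by ring
    rw [h7] at h1
    linarith
  -- the weight
  have hwt : ∀ y : Zd d, CB.rr n y ^ (-(19 / 4) : ℝ) ≤ κ' * fs (11 / 4) n (y - c₀) := by
    intro y
    obtain ⟨h1, h2, h3⟩ := hrr n y hn1'
    have hr0 : 0 < CB.rr n y := by linarith
    have h3' : qq (n : ℝ) (y - c₀) ≤ Rc * CB.rr n y ^ 2 := h3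
    have hq0 : 0 < qq (n : ℝ) (y - c₀) := by
      unfold qq
      have : 0 ≤ LE.sq (y - c₀) := by
        unfold LE.sq
        exact Finset.sum_nonneg fun _ _ => sq_nonneg _
      positivity
    obtain ⟨h4, -⟩ := hFs d (11 / 4) n (y - c₀) hn1 (by norm_num) (by linarith)
    have h5 : (11 / 4 : ℝ) + 2 = 19 / 4 := by norm_num
    rw [h5] at h4
    have h6 : CB.rr n y ^ (-(19 / 4) : ℝ) ≤ Rc ^ (19 / 8 : ℝ) * ww (19 / 4) n (y - c₀) := by
      unfold ww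
      have h7 : (CB.rr n y) ^ (-(19 / 4) : ℝ) = ((CB.rr n y) ^ 2) ^ (-(19 / 8) : ℝ) := by
        rw [← Real.rpow_two, ← Real.rpow_mul hr0.le]
        norm_num
      have h8 : qq (n : ℝ) (y - c₀) / Rc ≤ (CB.rr n y) ^ 2 := by
        rw [div_le_iff₀ hRc0]
        linarith [h3']
      have h9 : (-(19 / 4 / 2) : ℝ) = -(19 / 8) := by norm_num
      rw [h7, h9]
      calc ((CB.rr n y) ^ 2) ^ (-(19 / 8) : ℝ) ≤ (qq (n : ℝ) (y - c₀) / Rc) ^ (-(19 / 8) : ℝ) :=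
            Real.rpow_le_rpow_of_nonpos (by positivity) h8 (by norm_num)
        _ = Rc ^ (19 / 8 : ℝ) * qq (n : ℝ) (y - c₀) ^ (-(19 / 8) : ℝ) := by
            rw [Real.div_rpow hq0.le hRc0.le, Real.rpow_neg hRc0.le, div_inv_eq_mul, mul_comm]
    refine h6.trans ?_
    have h7 : ww (19 / 4) n (y - c₀) ≤ fs (11 / 4) n (y - c₀) / κ := by
      rw [le_div_iff₀ hκ0]
      have h4' : κ * ww (19 / 4) n (y - c₀) ≤ fs (11 / 4) n (y - c₀) := h4
      linarith [h4', mul_comm κ (ww (19 / 4) n (y - c₀))]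
    calc Rc ^ (19 / 8 : ℝ) * ww (19 / 4) n (y - c₀) ≤
          Rc ^ (19 / 8 : ℝ) * (fs (11 / 4) n (y - c₀) / κ) := by gcongr
      _ = κ' * fs (11 / 4) n (y - c₀) := by
          rw [hκ']
          ring
  have hsum : ∑ y ∈ CB.Lam d n M', (cp (ES (CB.Lam d n M')) (pH d) x y -
      cp (ES (CB.Lam d n M)) (pH d) x y) * CB.rr n y ^ (-(19 / 4) : ℝ) ≤ κ' * (S' - S) := by
    have h1 : S = ∑ y ∈ CB.Lam d n M', cp (ES (CB.Lam d n M)) (pH d) x y *
        fs (11 / 4) n (y - c₀) := by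
      rw [hS]
      refine Finset.sum_subset hLL fun y _ hy => ?_
      rw [hm5 _ x y hxL hy, zero_mul]
    rw [h1, hS', ← Finset.sum_sub_distrib, Finset.mul_sum]
    refine Finset.sum_le_sum fun y _ => ?_
    have h2 : 0 ≤ cp (ES (CB.Lam d n M')) (pH d) x y - cp (ES (CB.Lam d n M)) (pH d) x y :=
      sub_nonneg.2 (hmono _ _ hLL x y)
    have h3 := mul_le_mul_of_nonneg_left (hwt y) h2
    linarith
  have hfin : (∑ y ∈ CB.Lam d n M', (cp (ES (CB.Lam d n M')) (pH d) x y -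
      cp (ES (CB.Lam d n M)) (pH d) x y) * CB.rr n y ^ (-(19 / 4) : ℝ)) / (n : ℝ) ^ 2 ≤
      κ' / A * (A / (n : ℝ) ^ 2 * (S' - S)) := by
    have h1 : κ' / A * (A / (n : ℝ) ^ 2 * (S' - S)) = κ' * (S' - S) / (n : ℝ) ^ 2 := by
      field_simp
    rw [h1]
    gcongr
  refine hfin.trans ((mul_le_mul_of_nonneg_left hdiff (by positivity : 0 ≤ κ' / A)).trans ?_)
  have hkA : 0 ≤ κ' / A := by positivity
  have r1 : κ' / A * ((4 * K + 8 * d * A * K) / (M : ℝ) ^ 2) ≤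
      (1 + κ' / A * (4 * K + 8 * d * A * K)) / (M : ℝ) ^ 2 := by
    rw [mul_div_assoc']
    gcongr
    linarith
  have r2 : κ' / A * ((CP + CM) / n) ≤ (1 + κ' / A * (CP + CM)) / n := by
    rw [mul_div_assoc']
    gcongr
    linarith
  have hz : 0 ≤ (n : ℝ) ^ 2 * (1 / (M' : ℝ)) ^ (3 / 4 : ℝ) := by positivity
  have r3 : κ' / A * (CP * ((n : ℝ) ^ 2 * (1 / (M' : ℝ)) ^ (3 / 4 : ℝ))) ≤
      (1 + κ' / A * (CP + CM)) * (n : ℝ) ^ 2 * (1 / (M' : ℝ)) ^ (3 / 4 : ℝ) := by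
    have h1 : κ' / A * CP ≤ 1 + κ' / A * (CP + CM) := by
      have : 0 ≤ κ' / A * CM := by positivity
      nlinarith
    calc κ' / A * (CP * ((n : ℝ) ^ 2 * (1 / (M' : ℝ)) ^ (3 / 4 : ℝ)))
        = (κ' / A * CP) * ((n : ℝ) ^ 2 * (1 / (M' : ℝ)) ^ (3 / 4 : ℝ)) := by ring
      _ ≤ (1 + κ' / A * (CP + CM)) * ((n : ℝ) ^ 2 * (1 / (M' : ℝ)) ^ (3 / 4 : ℝ)) :=
          mul_le_mul_of_nonneg_right h1 hz
      _ = _ := by ring
  calc κ' / A * ((4 * K + 8 * d * A * K) / (M : ℝ) ^ 2 + (CP + CM) / n +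
        CP * ((n : ℝ) ^ 2 * (1 / (M' : ℝ)) ^ (3 / 4 : ℝ)))
      = κ' / A * ((4 * K + 8 * d * A * K) / (M : ℝ) ^ 2) + κ' / A * ((CP + CM) / n) +
        κ' / A * (CP * ((n : ℝ) ^ 2 * (1 / (M' : ℝ)) ^ (3 / 4 : ℝ))) := by ring
    _ ≤ _ := add_le_add (add_le_add r1 r2) r3

end Pool.KD
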