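import Pool.Agent.Helper26.KD.StT

/-! # Project CB, module T0m: lower bound in the box -/

set_option autoImplicit false

open scoped BigOperators ENNReal Topology
open Pool.LE Pool.NL Filter

namespace Pool.KD

theorem hT0m (hId : StId) (hLoc : StLoc) (hTb : StTb) (hExpC : StExpC) (hFs : StFs) (hWc : StWc)
    (hW : StW) (hBn : StBn) (hHh : StHh) (hBox : StBox) : StT0m := by
  classical
  intro d K A hEK M hM
  have hMR : (1 : ℝ) ≤ M := by exact_mod_cast hM
  obtain ⟨CE, hCE, hE⟩ := hExpC (11 / 4) M (by norm_num) hMR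
  obtain ⟨CW, hCW, hw⟩ := hWc (11 / 4) M (by norm_num) hMR
  have hK := hEK.hK
  have hA := hEK.hA
  have hd := hEK.hd
  have hdR : (21 : ℝ) ≤ d := by exact_mod_cast hd
  have hp0 : 0 ≤ pH d := hEK.p0.le
  have hp1 : pH d ≤ 1 := le_trans hEK.p1 (by norm_num)
  set C₁ : ℝ := CE * K + 12288 with hC₁
  have hC₁0 : 0 < C₁ := by positivity
  refine ⟨1 + (C₁ * (16 * K * (M : ℝ) ^ 2) + 512 + CW * K), ?_, ?_⟩
  · have : 0 ≤ C₁ * (16 * K * (M : ℝ) ^ 2) + 512 + CW * K := by positivity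
    linarith
  intro n N c v hn hN hc hv
  have hnR : (16 : ℝ) ≤ n := by exact_mod_cast hn
  have hn0 : (0 : ℝ) < n := by linarith
  have hn1 : (1 : ℝ) ≤ n := by linarith
  obtain ⟨w1, w2, w3, w4, w5⟩ := hw d n hn1
  obtain ⟨wq, -, wp, -, -, -, -, -⟩ := hW d n hn1
  have nn0 : ∀ z : Zd d, 0 ≤ nn z := fun z => (wq z).2.1
  set w : Zd d → ℝ := fun x => wc (11 / 4) n (M * n) (x - c) with hwdef
  have hww1 : ∀ z : Zd d, ww (11 / 4) n z ≤ 1 := fun z => (wp (11 / 4) z (by norm_num)).2.1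
  have hww0 : ∀ z : Zd d, 0 < ww (11 / 4) n z := fun z => (wp (11 / 4) z (by norm_num)).1
  have hw0 : ∀ x, 0 ≤ w x := fun x => (w1 (x - c)).1
  have hwle : ∀ x, |w x| ≤ 1 := fun x => by
    rw [abs_of_nonneg (hw0 x)]
    exact (w1 (x - c)).2.trans (hww1 _)
  have hbx : ∀ (R : ℕ) (y : Zd d), y ∈ bx d R ↔ ∀ i, |y i| ≤ R := (hBox d).2.1
  have hvB : v ∈ Bn d N := by
    have := hv 0 ((hbx _ _).2 fun i => by
      rw [Pi.zero_apply, abs_zero]
      exact Int.natCast_nonneg _)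
    simpa using this
  have hfs0 : ∀ z : Zd d, 0 ≤ fs (11 / 4) n z := fun z => by
    obtain ⟨h1, -⟩ := hFs d (11 / 4) n z hn1 (by norm_num) (by linarith)
    refine le_trans ?_ h1
    have h2 := (wp (11 / 4 + 2) z (by norm_num)).1
    have : (0 : ℝ) < (d : ℝ) - 11 / 4 - 2 := by linarith
    positivity
  -- radius
  set R : ℕ := n / 8 with hR
  have hR1 : 1 ≤ R := by omega
  have hRR : (n : ℝ) / 16 ≤ R := by
    have h1 : n ≤ 16 * R := by omega
    have h2 : (n : ℝ) ≤ 16 * R := by exact_mod_cast h1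
    linarith
  have hR0 : (0 : ℝ) < R := by exact_mod_cast hR1
  have hR3 : 1 / (R : ℝ) ^ 3 ≤ 4096 / (n : ℝ) ^ 3 := by
    rw [div_le_div_iff₀ (by positivity) (by positivity)]
    have h1 : ((n : ℝ) / 16) ^ 3 ≤ (R : ℝ) ^ 3 := by gcongr
    have h2 : ((n : ℝ) / 16) ^ 3 = (n : ℝ) ^ 3 / 4096 := by ring
    rw [h2] at h1
    linarith
  -- step A
  have stepA : ∀ b ∈ Bn d N, w b - KT d N w b ≤
      A / (n : ℝ) ^ 2 * (fs (11 / 4) n (b - c) + 8 * d / (M : ℝ) ^ 2 * ww (11 / 4) n (b - c)) +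
        C₁ / (n : ℝ) ^ 3 := by
    intro b hb
    have hp : 0 ≤ A / (n : ℝ) ^ 2 *
        (fs (11 / 4) n (b - c) + 8 * d / (M : ℝ) ^ 2 * ww (11 / 4) n (b - c)) := by
      have h1 := hfs0 (b - c)
      have h2 := hww0 (b - c)
      positivity
    by_cases hdep : ∀ y ∈ bx d R, b + y ∈ Bn d N
    · obtain ⟨h1, -⟩ := hLoc d K A hEK N R w hR1 hwle b hdep
      have h2 := hE d (FZ d (pH d)) K n (by linarith) hEK.Fsym hEK.FM hEK.F1 (by
        have h3 := hEK.F2
        rw [div_eq_iff (by positivity)] at h3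
        rw [h3]
        positivity) hn1 (b - c)
      rw [hEK.F2] at h2
      have h3 : ∑' y, FZ d (pH d) y * w (b - y) =
          ∑' y, FZ d (pH d) y * wc (11 / 4) n (M * n) (b - c - y) := by
        refine tsum_congr fun y => ?_
        rw [hwdef]
        simp only
        congr 2
        abel
      rw [h3] at h1
      have h4 := (abs_le.1 h1).1
      have h5 : w b = wc (11 / 4) n (M * n) (b - c) := rfl
      have h6 : A / (n : ℝ) ^ 2 *
          (fs (11 / 4) n (b - c) + 8 * d / (M : ℝ) ^ 2 * ww (11 / 4) n (b - c)) +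
          CE * K / (n : ℝ) ^ 3 + 2 / (R : ℝ) ^ 3 ≤ A / (n : ℝ) ^ 2 *
          (fs (11 / 4) n (b - c) + 8 * d / (M : ℝ) ^ 2 * ww (11 / 4) n (b - c)) +
          C₁ / (n : ℝ) ^ 3 := by
        have h7 : 2 / (R : ℝ) ^ 3 ≤ 12288 / (n : ℝ) ^ 3 := by
          have h8 : 2 / (R : ℝ) ^ 3 = 2 * (1 / (R : ℝ) ^ 3) := by ring
          have h9 : 2 * (4096 / (n : ℝ) ^ 3) ≤ 12288 / (n : ℝ) ^ 3 := by
            rw [mul_div_assoc']
            gcongr
            norm_num
          rw [h8]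
          linarith
        rw [hC₁, add_div]
        linarith
      linarith
    · -- far from the support
      push Not at hdep
      obtain ⟨y₀, hy₀, hy₀'⟩ := hdep
      have hzero : ∀ y ∈ bx d R, w (b + y) = 0 := by
        intro y hy
        by_contra hne
        have h1 : nn (b + y - c) < M * n := by
          by_contra hcon
          exact hne (w2 _ (not_lt.1 hcon))
        apply hy₀'
        have h2 : b + y₀ = c + (b + y - c + (y₀ - y)) := by abel
        rw [h2]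
        refine hc _ ((hbx _ _).2 fun i => ?_)
        have h3 := (hbx _ _).1 hy i
        have h4 := (hbx _ _).1 hy₀ i
        have h5 : |((b + y - c) i : ℤ)| ≤ M * n := by
          have h6 : |(((b + y - c) i : ℤ) : ℝ)| ≤ nn (b + y - c) := by
            have h7 := (wq (b + y - c)).2.2.1
            refine abs_le_of_sq_le_sq ?_ (nn0 _)
            rw [h7]
            unfold LE.sq
            exact Finset.single_le_sum (f := fun j => (((b + y - c) j : ℤ) : ℝ) ^ 2)
              (fun j _ => sq_nonneg _) (Finset.mem_univ i)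
          have h8 : |(((b + y - c) i : ℤ) : ℝ)| ≤ ((M * n : ℕ) : ℝ) := by
            push_cast
            linarith
          exact_mod_cast h8
        have h9 : |(y₀ - y) i| ≤ 2 * R := by
          rw [Pi.sub_apply]
          calc |y₀ i - y i| ≤ |y₀ i| + |y i| := abs_sub _ _
            _ ≤ 2 * R := by linarith
        rw [Pi.add_apply]
        have h10 : 2 * R ≤ n / 4 := by omega
        have h11 : (2 * (R : ℤ)) ≤ ((n / 4 : ℕ) : ℤ) := by exact_mod_cast h10
        calc |(b + y - c) i + (y₀ - y) i| ≤ |(b + y - c) i| + |(y₀ - y) i| := abs_add_le _ _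
          _ ≤ ((M * n + n / 4 : ℕ) : ℤ) := by
            push_cast
            push_cast at h11
            linarith
      have hb0 : w b = 0 := by
        have := hzero 0 ((hbx _ _).2 fun i => by
          rw [Pi.zero_apply, abs_zero]
          exact Int.natCast_nonneg _)
        simpa using this
      have h1 := hTb d K A hEK N R w 0 hR1 le_rfl hwle b hb (fun y hy => by
        rw [hzero y hy, abs_zero])
      have h2 := (abs_le.1 h1).1
      have h3 : 3 / (R : ℝ) ^ 3 ≤ C₁ / (n : ℝ) ^ 3 := by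
        have h8 : 3 / (R : ℝ) ^ 3 = 3 * (1 / (R : ℝ) ^ 3) := by ring
        have h9 : 3 * (4096 / (n : ℝ) ^ 3) ≤ C₁ / (n : ℝ) ^ 3 := by
          rw [mul_div_assoc']
          gcongr
          rw [hC₁]
          have : 0 ≤ CE * K := by positivity
          linarith
        rw [h8]
        linarith
      rw [hb0]
      linarith
  -- step B
  obtain ⟨hFG, -, -, -, -⟩ := hBn d N
  obtain ⟨hh1, hh2, -, hh4, -⟩ := hHh (Zd d) (Bn d N) (ES (Bn d N)) (2 * d) (pH d) hFG hp0 hp1
  have hN1 : 1 ≤ N := by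
    by_contra hcon
    have hN0 : N = 0 := by omega
    subst hN0
    have h3 := ((hBn d 0).2.2.2.1 v).1 hvB ⟨0, by omega⟩
    have h4 := h3.1
    have h5 := h3.2
    push_cast at h5
    omega
  have hub := hEK.hub N hN1 v hvB
  have hub' : ∑ b ∈ Bn d N, cp (ES (Bn d N)) (pH d) v b ≤ 16 * K * (M : ℝ) ^ 2 * (n : ℝ) ^ 2 := by
    refine le_trans hub ?_
    have h1 : (N : ℝ) ≤ 4 * M * n := by exact_mod_cast hN
    calc K * (N : ℝ) ^ 2 ≤ K * (4 * M * n) ^ 2 := by gcongr
      _ = 16 * K * (M : ℝ) ^ 2 * (n : ℝ) ^ 2 := by ring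
  have stepB : ∑ b ∈ Bn d N, cp (ES (Bn d N)) (pH d) v b * (w b - KT d N w b) ≤
      A / (n : ℝ) ^ 2 * ∑ b ∈ Bn d N, cp (ES (Bn d N)) (pH d) v b *
          (fs (11 / 4) n (b - c) + 8 * d / (M : ℝ) ^ 2 * ww (11 / 4) n (b - c)) +
        C₁ * (16 * K * (M : ℝ) ^ 2) / n := by
    calc ∑ b ∈ Bn d N, cp (ES (Bn d N)) (pH d) v b * (w b - KT d N w b)
        ≤ ∑ b ∈ Bn d N, cp (ES (Bn d N)) (pH d) v b * (A / (n : ℝ) ^ 2 *
          (fs (11 / 4) n (b - c) + 8 * d / (M : ℝ) ^ 2 * ww (11 / 4) n (b - c)) +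
            C₁ / (n : ℝ) ^ 3) :=
          Finset.sum_le_sum fun b hb => mul_le_mul_of_nonneg_left (stepA b hb) (hh2 v b).2.1
      _ = A / (n : ℝ) ^ 2 * ∑ b ∈ Bn d N, cp (ES (Bn d N)) (pH d) v b *
          (fs (11 / 4) n (b - c) + 8 * d / (M : ℝ) ^ 2 * ww (11 / 4) n (b - c)) +
          C₁ / (n : ℝ) ^ 3 * ∑ b ∈ Bn d N, cp (ES (Bn d N)) (pH d) v b := by
          rw [Finset.mul_sum, Finset.mul_sum, ← Finset.sum_add_distrib]
          refine Finset.sum_congr rfl fun b _ => ?_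
          ring
      _ ≤ A / (n : ℝ) ^ 2 * ∑ b ∈ Bn d N, cp (ES (Bn d N)) (pH d) v b *
          (fs (11 / 4) n (b - c) + 8 * d / (M : ℝ) ^ 2 * ww (11 / 4) n (b - c)) +
          C₁ / (n : ℝ) ^ 3 * (16 * K * (M : ℝ) ^ 2 * (n : ℝ) ^ 2) := by
          gcongr
      _ = _ := by
          congr 1
          field_simp
  rw [hId d K A hEK N w v hvB] at stepB
  -- step C
  have hn4 : 1 ≤ n / 4 := by omega
  obtain ⟨-, hloc⟩ := hLoc d K A hEK N (n / 4) w hn4 hwle v hv
  have stepC := (abs_le.1 hloc).1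
  have hR4 : 1 / (((n / 4 : ℕ) : ℝ)) ^ 3 ≤ 512 / n := by
    have h1 : n ≤ 8 * (n / 4) := by omega
    have h2 : (n : ℝ) ≤ 8 * ((n / 4 : ℕ) : ℝ) := by exact_mod_cast h1
    have h0 : (0 : ℝ) < ((n / 4 : ℕ) : ℝ) := by exact_mod_cast hn4
    rw [div_le_div_iff₀ (by positivity) hn0]
    have h3 : ((n : ℝ) / 8) ^ 3 ≤ (((n / 4 : ℕ) : ℝ)) ^ 3 := by
      gcongr
      linarith
    have h4 : ((n : ℝ) / 8) ^ 3 = (n : ℝ) ^ 3 / 512 := by ring
    rw [h4] at h3
    have h5 : (n : ℝ) ≤ (n : ℝ) ^ 3 := by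
      have : (1 : ℝ) ≤ (n : ℝ) ^ 2 := one_le_pow₀ hn1
      calc (n : ℝ) = n * 1 := by ring
        _ ≤ n * (n : ℝ) ^ 2 := by gcongr
        _ = (n : ℝ) ^ 3 := by ring
    linarith
  -- step D
  have hgs : Summable (fun y => |gS d (pH d) y|) := by
    refine Summable.of_nonneg_of_le (fun y => abs_nonneg _) (fun y => ?_) hEK.gM.summ
    have : 1 ≤ (1 + nn y) ^ 3 := one_le_pow₀ (by linarith [nn0 y])
    exact le_mul_of_one_le_left (abs_nonneg _) this
  have stepD : (∑' y, gS d (pH d) y) * w v - CW * K / n ≤ ∑' y, gS d (pH d) y * w (v - y) := by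
    have hs1 : Summable (fun y => gS d (pH d) y * w v) := hgs.of_abs.mul_right _
    have hs2 : Summable (fun y => gS d (pH d) y * w (v - y)) := by
      refine Summable.of_norm_bounded hgs fun y => ?_
      rw [Real.norm_eq_abs, abs_mul]
      exact mul_le_of_le_one_right (abs_nonneg _) (hwle _)
    have h1 : ∀ y, gS d (pH d) y * w v - gS d (pH d) y * w (v - y) ≤
        CW / n * ((1 + nn y) ^ 3 * |gS d (pH d) y|) := by
      intro y
      have h2 := w3 (v - c) (-y)
      have h3 : nn (-y) = nn y := (wq y).2.2.2.1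
      have h4 : v - c + -y = v - y - c := by abel
      rw [h3, h4] at h2
      have h5 : |w (v - y) - w v| ≤ CW * nn y / n := h2
      have h6 : nn y ≤ (1 + nn y) ^ 3 := by
        have h7 := nn0 y
        have h8 : 1 + nn y ≤ (1 + nn y) ^ 3 := le_self_pow₀ (by linarith) (by norm_num)
        linarith
      calc gS d (pH d) y * w v - gS d (pH d) y * w (v - y)
          ≤ |gS d (pH d) y * w v - gS d (pH d) y * w (v - y)| := le_abs_self _
        _ = |gS d (pH d) y| * |w (v - y) - w v| := by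
            rw [← mul_sub, abs_mul, abs_sub_comm]
        _ ≤ |gS d (pH d) y| * (CW * nn y / n) := by gcongr
        _ ≤ |gS d (pH d) y| * (CW * (1 + nn y) ^ 3 / n) := by gcongr
        _ = _ := by ring
    have h2 := (hs1.sub hs2).tsum_le_tsum h1 (hEK.gM.summ.mul_left _)
    rw [hs1.tsum_sub hs2, tsum_mul_left, tsum_mul_right] at h2
    have h3 : CW / n * ∑' y, (1 + nn y) ^ 3 * |gS d (pH d) y| ≤ CW * K / n := by
      calc CW / n * ∑' y, (1 + nn y) ^ 3 * |gS d (pH d) y| ≤ CW / n * K :=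
            mul_le_mul_of_nonneg_left hEK.gM.le (by positivity)
        _ = CW * K / n := by ring
    linarith
  have hfin : (∑' y, gS d (pH d) y) * wc (11 / 4) n (M * n) (v - c) =
      (∑' y, gS d (pH d) y) * w v := rfl
  rw [hfin]
  have hsplit : (1 + (C₁ * (16 * K * (M : ℝ) ^ 2) + 512 + CW * K)) / (n : ℝ) =
      1 / n + C₁ * (16 * K * (M : ℝ) ^ 2) / n + 512 / n + CW * K / n := by ring
  rw [hsplit]
  have h1n : 0 ≤ 1 / (n : ℝ) := by positivity
  linarith

end Pool.KD
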