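import Pool.Agent.Helper26.KD.St

/-! # Project CB (MP_65faa7, bulk case), block T0: definitions and statements
Truncation of the two-point function. Paper proof: /team-store/MP_65faa7-KT-plan.md -/

set_option autoImplicit false

open scoped BigOperators ENNReal Topology
open Pool.LE Pool.NL Filter

namespace Pool.KD

/-! ## The truncated weight -/

/-- the cut-off -/
noncomputable def ct {d : ℕ} (r : ℝ) (x : Zd d) : ℝ := (max 0 (1 - LE.sq x / r ^ 2)) ^ 4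

/-- the truncated weight -/
noncomputable def wc {d : ℕ} (s m r : ℝ) (x : Zd d) : ℝ := ww s m x * ct r x

/-- Taylor expansion of the truncated weight, and upper bound for `- m² Δ` of it -/
def StTayC : Prop := ∀ (s M : ℝ), 0 < s → 1 ≤ M → ∃ C : ℝ, 1 ≤ C ∧ ∀ (d : ℕ) (m : ℝ) (x : Zd d),
  s + 2 < d → 1 ≤ m → ∃ a b c : ℝ,
    (∀ y : Zd d, |wc s m (M * m) (x - y) - wc s m (M * m) x - a * dt x y - b * dt x y ^ 2 -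
      c * LE.sq y| ≤ C * (nn y / m) ^ 3) ∧
    (-(2 * b * LE.sq x + 2 * d * c) * m ^ 2 ≤ fs s m x + 8 * d / M ^ 2 * ww s m x)

/-- elementary facts on the truncated weight -/
def StWc : Prop := ∀ (s M : ℝ), 0 ≤ s → 1 ≤ M → ∃ C : ℝ, 1 ≤ C ∧ ∀ (d : ℕ) (m : ℝ), 1 ≤ m →
  (∀ x : Zd d, 0 ≤ wc s m (M * m) x ∧ wc s m (M * m) x ≤ ww s m x) ∧
  (∀ x : Zd d, M * m ≤ nn x → wc s m (M * m) x = 0) ∧
  (∀ x y : Zd d, |wc s m (M * m) (x + y) - wc s m (M * m) x| ≤ C * nn y / m) ∧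
  (∀ x y : Zd d, |ww s m (x + y) - ww s m x| ≤ C * nn y / m) ∧
  (∀ x : Zd d, 2 ≤ s → ww s m x - wc s m (M * m) x ≤ 4 / M ^ 2)

/-- the expansion of `w - F * w` for the truncated weight -/
def StExpC : Prop := ∀ (s M : ℝ), 0 < s → 1 ≤ M → ∃ C : ℝ, 1 ≤ C ∧
  ∀ (d : ℕ) (F : Zd d → ℝ) (K m : ℝ), s + 2 < d → SymF F → M3 F K → ∑' y, F y = 1 →
    0 ≤ ∑' y, LE.sq y * F y → 1 ≤ m → ∀ x : Zd d,
      wc s m (M * m) x - ∑' y, F y * wc s m (M * m) (x - y) ≤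
        (∑' y, LE.sq y * F y) / (2 * d) / m ^ 2 * (fs s m x + 8 * d / M ^ 2 * ww s m x) +
          C * K / m ^ 3

/-! ## The finite box -/

/-- the environment for the truncation -/
structure EK (d : ℕ) (K A : ℝ) : Prop where
  hd : 21 ≤ d
  hK : 1 ≤ K
  hA : 0 < A
  p0 : 0 < pH d
  p1 : pH d ≤ 1 / 2
  dp : 2 * (d : ℝ) * pH d ≤ 2
  g3 : ∀ E : Finset (Sym2 (Zd d)), (E : Set (Sym2 (Zd d))) ⊆ latE d → G3 E (pH d)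
  g3z : G3Z d (pH d)
  gM : M3 (gS d (pH d)) K
  gsym : SymF (gS d (pH d))
  FM : M3 (FZ d (pH d)) K
  Fsym : SymF (FZ d (pH d))
  F1 : ∑' y, FZ d (pH d) y = 1
  F2 : (∑' y, LE.sq y * FZ d (pH d) y) / (2 * d) = A
  gp : 0 ≤ ∑' y, gS d (pH d) y
  hub : ∀ n : ℕ, 1 ≤ n → ∀ x ∈ Bn d n, hh (Bn d n) (ES (Bn d n)) (pH d) x ≤ K * (n : ℝ) ^ 2
  tw : ∀ (m : ℝ) (L : Finset (Zd d)) (x : Zd d), 1 ≤ m →
    ∑ y ∈ L, tau d (pH d) (y - x) * ww (11 / 4) m y ≤ K * m ^ 2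

/-- the environment exists -/
def StEK : Prop := ∃ d₁ : ℕ, ∀ d : ℕ, d₁ ≤ d → ∃ K A : ℝ, EK d K A

/-- the step kernel of the box applied to a function -/
noncomputable def KT (d N : ℕ) (w : Zd d → ℝ) (b : Zd d) : ℝ :=
  pH d * ∑ u ∈ Bn d N, if u ∈ nb b then ∑ x ∈ Bn d N, gT (ES (Bn d N)) (pH d) u x * w x else 0

/-- the finite volume identity -/
def StId : Prop := ∀ (d : ℕ) (K A : ℝ), EK d K A → ∀ (N : ℕ) (w : Zd d → ℝ), ∀ v ∈ Bn d N,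
  ∑ b ∈ Bn d N, cp (ES (Bn d N)) (pH d) v b * (w b - KT d N w b) =
    ∑ x ∈ Bn d N, gT (ES (Bn d N)) (pH d) v x * w x

/-- locality -/
def StLoc : Prop := ∀ (d : ℕ) (K A : ℝ), EK d K A → ∀ (N R : ℕ) (w : Zd d → ℝ), 1 ≤ R →
  (∀ x, |w x| ≤ 1) → ∀ v : Zd d, (∀ y ∈ bx d R, v + y ∈ Bn d N) →
    |KT d N w v - ∑' y, FZ d (pH d) y * w (v - y)| ≤ 2 / (R : ℝ) ^ 3 ∧
    |∑ x ∈ Bn d N, gT (ES (Bn d N)) (pH d) v x * w x - ∑' y, gS d (pH d) y * w (v - y)| ≤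
      1 / (R : ℝ) ^ 3

/-- tails in the box -/
def StTb : Prop := ∀ (d : ℕ) (K A : ℝ), EK d K A → ∀ (N R : ℕ) (w : Zd d → ℝ) (q : ℝ), 1 ≤ R →
  0 ≤ q → (∀ x, |w x| ≤ 1) → ∀ v ∈ Bn d N, (∀ y ∈ bx d R, |w (v + y)| ≤ q) →
    |KT d N w v| ≤ 3 * q + 3 / (R : ℝ) ^ 3

/-- upper bound -/
def StT0p : Prop := ∀ (d : ℕ) (K A : ℝ), EK d K A → ∃ C : ℝ, 1 ≤ C ∧ ∀ (n N D : ℕ) (c v : Zd d),
  1 ≤ n → n ≤ D → 2 ≤ D → N ≤ 4 * D → (∀ y ∈ bx d D, c + y ∈ Bn d N) → v - c ∈ bx d (D / 2) →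
    A / (n : ℝ) ^ 2 * ∑ b ∈ Bn d N, cp (ES (Bn d N)) (pH d) v b * fs (11 / 4) n (b - c) ≤
      (∑' y, gS d (pH d) y) * ww (11 / 4) n (v - c) + C / n +
        C * (D : ℝ) ^ 2 * ((n : ℝ) / D) ^ (11 / 4 : ℝ)

/-- lower bound -/
def StT0m : Prop := ∀ (d : ℕ) (K A : ℝ), EK d K A → ∀ M : ℕ, 1 ≤ M → ∃ C : ℝ, 1 ≤ C ∧
  ∀ (n N : ℕ) (c v : Zd d), 16 ≤ n → N ≤ 4 * M * n → (∀ y ∈ bx d (M * n + n / 4), c + y ∈ Bn d N) →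
    (∀ y ∈ bx d (n / 4), v + y ∈ Bn d N) →
      (∑' y, gS d (pH d) y) * wc (11 / 4) n (M * n) (v - c) ≤
        A / (n : ℝ) ^ 2 * ∑ b ∈ Bn d N, cp (ES (Bn d N)) (pH d) v b *
          (fs (11 / 4) n (b - c) + 8 * d / (M : ℝ) ^ 2 * ww (11 / 4) n (b - c)) + C / n

/-- translation of the big box -/
def StTrL : Prop := ∀ (d n M : ℕ) (p : ℝ), 0 ≤ p → p ≤ 1 →
  (∀ x : Zd d, x ∈ CB.Lam d n M ↔ (x + fun _ => ((M * n : ℕ) : ℤ)) ∈ Bn d ((2 * M + 1) * n)) ∧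
  (∀ x y : Zd d, cp (ES (CB.Lam d n M)) p x y = cp (ES (Bn d ((2 * M + 1) * n))) p
    (x + fun _ => ((M * n : ℕ) : ℤ)) (y + fun _ => ((M * n : ℕ) : ℤ))) ∧
  (∀ (L L' : Finset (Zd d)), L ⊆ L' → ∀ x y : Zd d, cp (ES L) p x y ≤ cp (ES L') p x y) ∧
  (∀ (L : Finset (Zd d)) (x y : Zd d), cp (ES L) p x y ≤ tau d p (y - x)) ∧
  (∀ (L : Finset (Zd d)) (x y : Zd d), x ∈ L → y ∉ L → cp (ES L) p x y = 0)

/-- the comparison -/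
def StT0c : Prop := ∀ (d : ℕ) (K A : ℝ), EK d K A → ∃ C : ℝ, 1 ≤ C ∧ ∀ M : ℕ, 1 ≤ M → ∃ C' : ℝ,
  1 ≤ C' ∧ ∀ (n M' : ℕ) (x : Zd d), 16 ≤ n → M ≤ M' → 2 * CB.rr n x ≤ M →
    (∑ y ∈ CB.Lam d n M', (cp (ES (CB.Lam d n M')) (pH d) x y - cp (ES (CB.Lam d n M)) (pH d) x y) *
      CB.rr n y ^ (-(19 / 4) : ℝ)) / (n : ℝ) ^ 2 ≤
        C / (M : ℝ) ^ 2 + C' / n + C' * (n : ℝ) ^ 2 * (1 / (M' : ℝ)) ^ (3 / 4 : ℝ)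

end Pool.KD
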