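import Pool.Agent.Helper22.CM.Bundle
import Pool.Agent.Helper26.CL.Out
import Pool.Agent.Helper26.KD.StT
import Pool.Agent.Helper89.KD.M_W
import Pool.Agent.Helper71.KD.M_Tay
import Pool.Agent.Helper76.KD.M_Exp
import Pool.Agent.Helper48.KD.M_Grn
import Pool.Agent.Helper84.KD.M_Dir
import Pool.Agent.Helper26.KD.M_Boo1
import Pool.Agent.Helper6.KD.M_Kt
import Pool.Agent.Helper52.KD.M_G3p
import Pool.Agent.Helper79.KD.M_M3p
import Pool.Agent.Helper67.KD.M_KSp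
import Pool.Agent.Helper36.KD.M_Lp
import Pool.Agent.Helper34.KD.M_Kw
import Pool.Agent.Helper73.KD.M_Rr
import Pool.Agent.Helper61.KD.M_TayC
import Pool.Agent.Helper4.KD.M_ExpC
import Pool.Agent.Helper88.KD.M_Fv
import Pool.Agent.Helper14.KD.M_T0p
import Pool.Agent.Helper26.KD.M_T0m
import Pool.Agent.Helper26.KD.M_T0c
import Pool.Agent.Helper80.KD.M_EK
import Pool.Agent.Helper48.KD.M_T0f
import Pool.Agent.Helper96.KD.M_Fs
import Pool.Agent.Helper37.KD.M_Wc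
import Pool.Agent.Helper57.KD.M_TrL
import Pool.Agent.Helper65.CL.M_Tr

/-! # Project CB, blocks K and T0: all modules together -/

set_option autoImplicit false

open scoped BigOperators ENNReal Topology
open Pool.LE Pool.NL Filter

namespace Pool.KD

theorem allKD :
    CB.StK1 ∧ CB.StK2 ∧ CB.StT0f ∧ StKw ∧ StTrL := by
  have B := Pool.NL.bundle
  have hDiagR : StDiagR := by
    have hBK : StBK := LE.hBK
    have hTRcm : StTRcm := LE.hTRcm hBK
    have hDRBK : StDRBK := LE.hDRBK hBK hTRcm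
    have hLevG : StLevG := Pool.NL.hLevG B.bEAR B.bATT hDRBK
    have hNNr : StNNr := Pool.NL.hNNr
    have hNwR : StNwR := Pool.NL.hNwR hNNr LE.hLastU LE.hBR
    have hLevR : StLevR := Pool.NL.hLevR hNwR B.bBase hLevG
    have hPsiR : StPsiR := Pool.NL.hPsiR hNNr hLevR
    have hRecR : StRecR := Pool.NL.hRecR (Pool.NL.hMassR Pool.NL.hMassG)
    exact Pool.NL.hDiagR hNNr hPsiR hRecR LE.hN0a (Pool.NL.hN0R hNNr B.bMenger hBK hTRcm)
  have hImpF : StImpF := LE.hImpF B.bCv B.bCvFT B.bFTadd B.bJf B.bFTb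
  have hEM : StExpMom := LE.hExpMom (LE.hExit B.bBK B.bTransl B.bBox) B.bTauBasic B.bBox
  have hIso : StIso := B.bIso
  have hN1 : Pool.CN.StN1 := Pool.CN.allCN.2.2.1
  have hN2 : Pool.CN.StN2 := Pool.CN.allCN.2.2.2.1
  have hGLs : Pool.CN.StGLs := Pool.CN.allCN.2.2.2.2
  have hW : StW := Pool.KD.hW
  have hFs : StFs := Pool.KD.hFs hW
  have hTl : StTl := Pool.KD.hTl hW
  have hWc : StWc := Pool.KD.hWc hW
  have hTrL : StTrL := Pool.KD.hTrL Pool.CL.hTr B.bBasic B.bTauDom B.bTauBasic B.bBox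
  have hTay : StTay := Pool.KD.hTay hW
  have hExp : StExp := Pool.KD.hExp hW hTay hIso
  have hGrn : StGrn := Pool.KD.hGrn
  have hDir : StDir := Pool.KD.hDir hW hExp hFs hTl hGrn
  have hBoo1 : StBoo1 := Pool.KD.hBoo1 hW hExp hFs hTl hGrn hDir
  have hKt : StKt := Pool.KD.hKt hW hDir hBoo1 (Pool.KD.hFt hW)
  have hG3p : StG3p := Pool.KD.hG3p hDiagR B.bKpTau B.bTauDom B.bTauMono B.bTauBasic B.bBox B.bB8
    B.bGcoef
  have hM3p : StM3p := Pool.KD.hM3p B.bCvA B.bSupp B.bBox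
  have hKSp : StKSp := Pool.KD.hKSp hG3p hM3p B.bB7 B.bCvA B.bCvB hImpF B.bB1 B.bPH hEM LE.hPolyExp
    B.bTauBasic B.bBox
  have hLp : StLp := Pool.KD.hLp B.bTauLeft B.bTauMono B.bTauBasic B.bPH
  have hKw : StKw := Pool.KD.hKw hKSp hKt hLp hW B.bTauBasic
  have hRr : StRr := Pool.KD.hRr
  have hTayC : StTayC := Pool.KD.hTayC hW hFs
  have hExpC : StExpC := Pool.KD.hExpC hW hTayC hIso
  have hId : StId := Pool.KD.hId hN2 B.bBn
  have hLoc : StLoc := Pool.KD.hLoc hN1 hN2 B.bBox B.bBn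
  have hTb : StTb := Pool.KD.hTb hN2 hGLs B.bBox B.bBn
  have hT0p : StT0p := Pool.KD.hT0p hId hLoc hTb hExp hFs hTl hWc hW B.bHh B.bBn hTrL
  have hT0m : StT0m := Pool.KD.hT0m hId hLoc hTb hExpC hFs hWc hW B.bBn B.bHh B.bBox
  have hT0c : StT0c := Pool.KD.hT0c hT0p hT0m hWc hFs hRr hTrL hW B.bBn B.bBox
  have hEK : StEK := Pool.KD.hEK B.bG3 hM3p B.bB8 B.bCvA B.bEnv B.bHub hKw hW
  exact ⟨Pool.KD.hK1 hKw hW, Pool.KD.hK2 hKw hRr hW, Pool.KD.hT0f hEK hT0c hTrL, hKw, hTrL⟩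

end Pool.KD

namespace Pool.CB

/-- (K1) -/
theorem hK1 : StK1 := Pool.KD.allKD.1

/-- (K2) -/
theorem hK2 : StK2 := Pool.KD.allKD.2.1

/-- (T0) -/
theorem hT0f : StT0f := Pool.KD.allKD.2.2.1

end Pool.CB
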