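import Pool.Agent.Helper26.CL.St
import Pool.Agent.Helper65.CB.StI

/-! # Project CB (MP_65faa7, bulk case), blocks K and T0: definitions and statements
Decay of the two-point function in mean, truncation. Paper proof: /team-store/MP_65faa7-KT-plan.md -/

set_option autoImplicit false

open scoped BigOperators ENNReal Topology
open Pool.LE Pool.NL Filter

namespace Pool.KD

/-! ## The weights -/

/-- euclidean length -/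
noncomputable def nn {d : ℕ} (x : Zd d) : ℝ := Real.sqrt (LE.sq x)

/-- scalar product -/
noncomputable def dt {d : ℕ} (x y : Zd d) : ℝ := ∑ i, (x i : ℝ) * y i

/-- `1 + |x|² / m²` -/
noncomputable def qq {d : ℕ} (m : ℝ) (x : Zd d) : ℝ := 1 + LE.sq x / m ^ 2

/-- the weight `w_s(x) = (1 + |x|² / m²)^(-s/2)` -/
noncomputable def ww {d : ℕ} (s m : ℝ) (x : Zd d) : ℝ := qq m x ^ (-(s / 2))

/-- first order term of `y ↦ w_s (x - y)` -/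
noncomputable def t1 {d : ℕ} (s m : ℝ) (x y : Zd d) : ℝ :=
  s * dt x y / m ^ 2 * qq m x ^ (-(s / 2) - 1)

/-- second order term of `y ↦ w_s (x - y)` -/
noncomputable def t2 {d : ℕ} (s m : ℝ) (x y : Zd d) : ℝ :=
  s * (s + 2) / 2 * (dt x y ^ 2 / m ^ 4) * qq m x ^ (-(s / 2) - 2) -
    s / 2 * (LE.sq y / m ^ 2) * qq m x ^ (-(s / 2) - 1)

/-- `- m² Δ w_s` -/
noncomputable def fs {d : ℕ} (s m : ℝ) (x : Zd d) : ℝ :=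
  s * d * qq m x ^ (-(s / 2) - 1) - s * (s + 2) * (LE.sq x / m ^ 2) * qq m x ^ (-(s / 2) - 2)

/-! ## The abstract setting -/

/-- finite third moment -/
structure M3 {d : ℕ} (F : Zd d → ℝ) (K : ℝ) : Prop where
  summ : Summable (fun y => (1 + nn y) ^ 3 * |F y|)
  le : ∑' y, (1 + nn y) ^ 3 * |F y| ≤ K

/-- a step kernel `F`, a source kernel `g` and a Green function `G` -/
structure KS (d : ℕ) (F g G : Zd d → ℝ) (K A : ℝ) : Prop where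
  hd : 21 ≤ d
  hK : 1 ≤ K
  hA : 0 < A
  F3 : M3 F K
  Fsym : SymF F
  F1 : ∑' y, F y ≤ 1
  F2 : A ≤ (∑' y, LE.sq y * F y) / (2 * d)
  g3 : M3 g K
  G0 : ∀ x, 0 ≤ G x
  Gs : Summable (fun y => (1 + nn y) ^ 3 * G y)
  eq : ∀ x, G x = g x + ∑' y, F y * G (x - y)

/-! ## Block K: the weights -/

/-- elementary facts on the weights -/
def StW : Prop := ∀ (d : ℕ) (m : ℝ), 1 ≤ m →
  (∀ x : Zd d, 1 ≤ qq m x ∧ 0 ≤ nn x ∧ nn x ^ 2 = LE.sq x ∧ nn (-x) = nn x ∧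
    qq m x ≤ (1 + nn x / m) ^ 2 ∧ (1 + nn x / m) ^ 2 ≤ 2 * qq m x) ∧
  (∀ x y : Zd d, nn (x + y) ≤ nn x + nn y ∧ |dt x y| ≤ nn x * nn y ∧
    qq m (x - y) = qq m x - 2 * dt x y / m ^ 2 + LE.sq y / m ^ 2) ∧
  (∀ (s : ℝ) (x : Zd d), 0 ≤ s → 0 < ww s m x ∧ ww s m x ≤ 1 ∧ ww s m (-x) = ww s m x) ∧
  (∀ (s t : ℝ) (x : Zd d), s ≤ t → ww t m x ≤ ww s m x) ∧
  (∀ (s t : ℝ) (x : Zd d), ww s m x * ww t m x = ww (s + t) m x) ∧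
  (∀ (s : ℝ) (x y : Zd d), 0 ≤ s → ww s m (x - y) ≤ 2 ^ s * (1 + nn y / m) ^ s * ww s m x) ∧
  (∀ (s : ℝ) (x y : Zd d), 0 ≤ s → 2 * nn y ≤ m + nn x → ww s m (x - y) ≤ 8 ^ s * ww s m x) ∧
  (∀ (s : ℝ) (x : Zd d), 0 ≤ s → (1 + nn x / m) ^ (-s) ≤ ww s m x ∧
    ww s m x ≤ 2 ^ s * (1 + nn x / m) ^ (-s))

/-- Taylor expansion of third order with a uniform bound of the remainder -/
def StTay : Prop := ∀ s : ℝ, 0 < s → ∃ C : ℝ, 1 ≤ C ∧ ∀ (d : ℕ) (m : ℝ) (x y : Zd d), 1 ≤ m →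
  |ww s m (x - y) - ww s m x - t1 s m x y - t2 s m x y| ≤
    C * (nn y / m) ^ 3 * ww (s + 3) m x + if m + nn x < 2 * nn y then ww s m (x - y) else 0

/-- the expansion of `w - F * w` -/
def StExp : Prop := ∀ (d : ℕ) (s : ℝ), 1 ≤ d → 0 < s → ∃ C : ℝ, 1 ≤ C ∧
  ∀ (F : Zd d → ℝ) (K m : ℝ), SymF F → M3 F K → 1 ≤ m → ∀ x : Zd d,
    Summable (fun y => F y * ww s m (x - y)) ∧
    Summable (fun y => if m + nn x < 2 * nn y then |F y| * ww s m (x - y) else 0) ∧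
    |ww s m x - ∑' y, F y * ww s m (x - y) - (1 - ∑' y, F y) * ww s m x -
      (∑' y, LE.sq y * F y) / (2 * d) / m ^ 2 * fs s m x| ≤ C * K / m ^ 3 * ww (s + 3) m x +
        ∑' y, if m + nn x < 2 * nn y then |F y| * ww s m (x - y) else 0

/-- the source -/
def StFs : Prop := ∀ (d : ℕ) (s m : ℝ) (x : Zd d), 1 ≤ m → 0 < s → s + 2 < d →
  s * (d - s - 2) * ww (s + 2) m x ≤ fs s m x ∧ fs s m x ≤ s * d * ww (s + 2) m x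

/-- tails of kernels with a third moment -/
def StTl : Prop := ∀ (d : ℕ) (F : Zd d → ℝ) (K m : ℝ), M3 F K → 1 ≤ m → ∀ x : Zd d,
  Summable (fun y => if m + nn x < 2 * nn y then |F y| else 0) ∧
  ∑' y, (if m + nn x < 2 * nn y then |F y| else 0) ≤ 8 * K / m ^ 3 * ww 3 m x

/-! ## Block K: the Green function -/

/-- convolution of the Green function with `w - F * w` -/
def StGrn : Prop := ∀ (d : ℕ) (F g G : Zd d → ℝ) (K A : ℝ), KS d F g G K A → ∀ w : Zd d → ℝ,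
  (∃ M : ℝ, ∀ x, |w x| ≤ M) → ∀ x : Zd d,
    Summable (fun y => G (x - y) * w y) ∧ Summable (fun y => g y * w (x - y)) ∧
    Summable (fun y => G (x - y) * ∑' z, F z * w (y - z)) ∧
    ∑' y, G (x - y) * (w y - ∑' z, F z * w (y - z)) = ∑' y, g y * w (x - y)

/-- small exponents -/
def StDir : Prop := ∀ (d : ℕ) (s K A : ℝ), 21 ≤ d → 0 < s → s ≤ 1 → 1 ≤ K → 0 < A →
  ∃ C m₀ : ℝ, 1 ≤ C ∧ 1 ≤ m₀ ∧ ∀ F g G : Zd d → ℝ, KS d F g G K A → ∀ (m : ℝ) (x : Zd d), m₀ ≤ m →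
    ∑' y, G (x - y) * ww (s + 2) m y ≤ C * m ^ 2 * ww s m x

/-- the inequality for the bootstrap -/
def StBoo1 : Prop := ∀ (d : ℕ) (K A : ℝ), 21 ≤ d → 1 ≤ K → 0 < A →
  ∃ C m₀ : ℝ, 1 ≤ C ∧ 1 ≤ m₀ ∧ ∀ F g G : Zd d → ℝ, KS d F g G K A → ∀ (m Γ : ℝ), m₀ ≤ m → 0 ≤ Γ →
    (∀ x : Zd d, ∑' y, G (x - y) * ww 5 m y ≤ Γ * m ^ 2 * ww 3 m x) →
      ∀ x : Zd d, ∑' y, G (x - y) * ww 5 m y ≤ (C + C / m * (1 + Γ)) * m ^ 2 * ww 3 m x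

/-- a priori finiteness -/
def StFt : Prop := ∀ (d : ℕ) (F g G : Zd d → ℝ) (K A m : ℝ), KS d F g G K A → 1 ≤ m →
  ∃ Γ : ℝ, 0 ≤ Γ ∧ ∀ x : Zd d, ∑' y, G (x - y) * ww 5 m y ≤ Γ * m ^ 2 * ww 3 m x

/-- all exponents -/
def StKt : Prop := ∀ (d : ℕ) (t K A : ℝ), 21 ≤ d → 2 < t → t ≤ 5 → 1 ≤ K → 0 < A → ∃ C : ℝ, 1 ≤ C ∧
  ∀ F g G : Zd d → ℝ, KS d F g G K A → ∀ (m : ℝ) (x : Zd d), 1 ≤ m →
    ∑' y, G (x - y) * ww t m y ≤ C * m ^ 2 * ww (t - 2) m x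

/-! ## Block K: percolation -/

/-- third moment below and at the critical point -/
def StG3p : Prop := ∃ d₁ : ℕ, ∀ d : ℕ, d₁ ≤ d → ∀ p : ℝ, 0 ≤ p → p ≤ pH d → G3Z d p

/-- third moments of the kernels -/
def StM3p : Prop := ∀ (d : ℕ) (p : ℝ), 1 ≤ d → 0 ≤ p → p ≤ 1 → G3Z d p → eta d p ≠ ⊤ →
  M3 (gS d p) (2 * (d : ℝ) ^ 2) ∧ M3 (FZ d p) (32 * p * (d : ℝ) ^ 3) ∧ SymF (FZ d p) ∧
  ∑' y, FZ d p y = 2 * d * p * FT (gS d p) 0 ∧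
  (∑' y, LE.sq y * FZ d p y) / (2 * d) = p * (FT (gS d p) 0 + ∑' y, LE.sq y * gS d p y)

/-- the setting for percolation -/
def StKSp : Prop := ∃ d₁ : ℕ, ∀ d : ℕ, d₁ ≤ d → ∃ K A : ℝ, 1 ≤ K ∧ 0 < A ∧ ∀ p : ℝ, pH d / 2 ≤ p →
  p < pH d → KS d (FZ d p) (gS d p) (tau d p) K A

/-- the limit `p → pH` -/
def StLp : Prop := ∀ (d : ℕ) (L : Finset (Zd d)) (f : Zd d → ℝ) (x : Zd d) (b : ℝ), 1 ≤ d →
  (∀ y, 0 ≤ f y) → (∀ p : ℝ, pH d / 2 ≤ p → p < pH d → ∑ y ∈ L, tau d p (x - y) * f y ≤ b) →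
    ∑ y ∈ L, tau d (pH d) (x - y) * f y ≤ b

/-- decay of the two-point function in the weights -/
def StKw : Prop := ∃ d₁ : ℕ, ∀ d : ℕ, d₁ ≤ d → ∀ t : ℝ, 2 < t → t ≤ 5 → ∃ C : ℝ, 1 ≤ C ∧
  ∀ (m : ℝ) (L : Finset (Zd d)) (x : Zd d), 1 ≤ m →
    ∑ y ∈ L, tau d (pH d) (y - x) * ww t m y ≤ C * m ^ 2 * ww (t - 2) m x

/-- comparison of the weights with the distance to the box -/
def StRr : Prop := ∀ d : ℕ, 1 ≤ d → ∃ C : ℝ, 1 ≤ C ∧ ∀ (n : ℕ) (x : Zd d), 1 ≤ n →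
  1 ≤ CB.rr n x ∧ CB.rr n x ^ 2 ≤ C * qq n (x - fun _ => ((n / 2 : ℕ) : ℤ)) ∧
    qq n (x - fun _ => ((n / 2 : ℕ) : ℤ)) ≤ C * CB.rr n x ^ 2

end Pool.KD
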